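import Mathlib
import Pool.Agent.W526.LL.Stm
import Pool.Agent.W526.LL.Red

/-! LL-CU3: the Poincare series is anti-invariant under a unipotent element. -/

set_option autoImplicit false

namespace Pool.Agent.W376.LLC

open Pool.Agent.W526.LL
open IsDedekindDomain WithZero Polynomial Topology
open scoped RestrictedProduct

section Iwasawa
variable {F : Type} [Field F] [Valued F ℤᵐ⁰]

theorem iwasawa (g : GL (Fin 2) F) : ∃ k ∈ maxK F, (g * k) 1 0 = 0 := by
  have hd := dt_ne_zero g
  rcases le_total (Valued.v (g 1 0)) (Valued.v (g 1 1)) with h | h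
  · -- `k = lo (-c/d)`
    have h11 : g 1 1 ≠ 0 := by
      intro h0
      rw [h0, map_zero, le_zero_iff, map_eq_zero] at h
      apply hd
      simp [dt, h0, h]
    refine ⟨lo (-(g 1 0 / g 1 1)), lo_mem ?_, ?_⟩
    · rw [Valuation.map_neg, map_div₀]
      have : Valued.v (g 1 1) ≠ 0 := by simpa using h11
      exact div_le_one_of_le₀ h zero_le
    · rw [mul_ij]
      simp only [lo, gl2_00, gl2_10]
      field_simp
      ring
  · have h10 : g 1 0 ≠ 0 := by
      intro h0
      rw [h0, map_zero, le_zero_iff, map_eq_zero] at h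
      apply hd
      simp [dt, h0, h]
    refine ⟨ws * lo (-(g 1 1 / g 1 0)), mul_mem ws_mem (lo_mem ?_), ?_⟩
    · rw [Valuation.map_neg, map_div₀]
      exact div_le_one_of_le₀ h zero_le
    · rw [mul_ij, mul_ij, mul_ij]
      simp only [lo, ws, gl2_00, gl2_10, gl2_01, gl2_11]
      field_simp
      ring

theorem tri_up (b : GL (Fin 2) F) (h0 : b 1 0 = 0) : up (b 0 0 / b 1 1) * b = b * up 1 := by
  have hd := dt_ne_zero b
  have h11 : b 1 1 ≠ 0 := by
    intro h
    apply hd
    simp [dt, h0, h]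
  apply ext4 <;> rw [mul_ij _ b, mul_ij b] <;> simp only [up, gl2_00, gl2_10, gl2_01, gl2_11, h0]
  · ring
  · field_simp
    ring
  · ring
  · ring

theorem conj_up (g : GL (Fin 2) F) : ∃ k ∈ maxK F, ∃ x₀ : F,
    up x₀ * g = g * (k * up 1 * k⁻¹) := by
  obtain ⟨k, hk, h0⟩ := iwasawa g
  refine ⟨k, hk, (g * k) 0 0 / (g * k) 1 1, ?_⟩
  set b := g * k with hb
  have e : up (b 0 0 / b 1 1) * b = b * up 1 := tri_up b h0
  have hg : g = b * k⁻¹ := by rw [hb]; group
  calc up (b 0 0 / b 1 1) * g = up (b 0 0 / b 1 1) * b * k⁻¹ := by rw [mul_assoc, ← hg]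
    _ = b * up 1 * k⁻¹ := by rw [e]
    _ = g * (k * up 1 * k⁻¹) := by rw [hb]; group

end Iwasawa

/-- the adele supported at one place -/
noncomputable def adl (p : Pl) (a : Kv p) : AA :=
  ⟨Pi.single (M := fun q => Kv q) p a, by
    refine (Filter.mem_cofinite.mpr ((Set.finite_singleton p).subset ?_))
    intro q hq
    by_contra hqp
    apply hq
    show Pi.single (M := fun q => Kv q) p a q ∈ (Valued.integer (Kv q) : Set (Kv q))
    rw [Pi.single_eq_of_ne hqp]
    exact zero_mem _⟩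

theorem adl_same (p : Pl) (a : Kv p) : adl p a p = a :=
  Pi.single_eq_same (M := fun q => Kv q) p a

theorem adl_ne {p q : Pl} (h : q ≠ p) (a : Kv p) : adl p a q = 0 :=
  Pi.single_eq_of_ne (M := fun q => Kv q) h a

theorem add_app (x y : AA) (p : Pl) : (x + y) p = x p + y p := rfl

theorem pl1_ne : pl1 ≠ pl0 := by
  intro h
  have h1 : pl1.asIdeal = pl0.asIdeal := by rw [h]
  have h2 : (X : (ZMod 2)[X]) ∈ pl1.asIdeal := by
    rw [h1]
    exact Ideal.mem_span_singleton_self _
  have h3 : (X - C 1 : (ZMod 2)[X]) ∣ X := Ideal.mem_span_singleton.mp h2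
  rw [Polynomial.dvd_iff_isRoot] at h3
  simp [Polynomial.IsRoot] at h3

theorem sg_one : sg 1 = 1 := by decide

theorem sg_kappa (h0 : Res2 (some pl0)) {k : GL (Fin 2) (Kv (some pl0))}
    (hk : k ∈ maxK (Kv (some pl0))) : sg (red (k * up 1 * k⁻¹)) = -1 := by
  have hu : (up 1 : GL (Fin 2) (Kv (some pl0))) ∈ maxK (Kv (some pl0)) :=
    up_mem (by rw [map_one])
  have hki := inv_mem hk
  have e1 : red (up (1 : Kv (some pl0))) = !![1, 1; 0, 1] := by
    ext i j
    show bit ((up (1 : Kv (some pl0))) i j) = _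
    fin_cases i <;> fin_cases j <;> simp [up]
  have e2 : sg (red (up (1 : Kv (some pl0)))) = -1 := by
    rw [e1]; decide
  have hm : k * up 1 ∈ maxK (Kv (some pl0)) := mul_mem hk hu
  rw [red_mul h0 hm hki, sg_mul _ _ _ _ (red_det h0 hm).1 (red_det h0 hki).1,
    red_mul h0 hk hu, sg_mul _ _ _ _ (red_det h0 hk).1 (red_det h0 hu).1, e2]
  have e3 : sg (red k) * sg (red k⁻¹) = 1 := by
    rw [← sg_mul _ _ _ _ (red_det h0 hk).1 (red_det h0 hki).1, (red_det h0 hk).1, sg_one]
  linear_combination (-1 : ℤ) * e3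

theorem phi_anti (h0 : Res2 (some pl0)) (g : GA) {k : GL (Fin 2) (Kv (some pl0))}
    (hk : k ∈ maxK (Kv (some pl0))) {x₀ : Kv (some pl0)}
    (h : up x₀ * g (some pl0) = g (some pl0) * (k * up 1 * k⁻¹)) (x : AA)
    (γ : GL (Fin 2) KK) :
    phi γ (uni (x + adl (some pl0) x₀) * g) = - phi γ (uni x * g) := by
  have hκ : k * up 1 * k⁻¹ ∈ maxK (Kv (some pl0)) :=
    mul_mem (mul_mem hk (up_mem (by rw [map_one]))) (inv_mem hk)
  have hne : ∀ q : Pl, q ≠ some pl0 →
      (uni (x + adl (some pl0) x₀) * g) q = (uni x * g) q := by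
    intro q hq
    rw [mul_apply, mul_apply, uni_apply, uni_apply, add_app, adl_ne hq, add_zero]
  have hsame : (uni (x + adl (some pl0) x₀) * g) (some pl0)
      = (uni x * g) (some pl0) * (k * up 1 * k⁻¹) := by
    rw [mul_apply, mul_apply, uni_apply, uni_apply, add_app, adl_same, ← up_mul,
      mul_assoc (up (x (some pl0))), h, ← mul_assoc (up (x (some pl0)))]
  have hcond : (∀ v, locK (some v) γ * (uni (x + adl (some pl0) x₀) * g) (some v) ∈
      maxK (Kv (some v))) ↔ (∀ v, locK (some v) γ * (uni x * g) (some v) ∈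
      maxK (Kv (some v))) := by
    refine forall_congr' fun v => ?_
    rcases eq_or_ne v pl0 with rfl | hv
    · rw [hsame, ← mul_assoc]
      exact Subgroup.mul_mem_cancel_right _ hκ
    · rw [hne _ (by simpa using hv)]
  unfold phi
  by_cases hc : ∀ v, locK (some v) γ * (uni x * g) (some v) ∈ maxK (Kv (some v))
  · rw [if_pos (hcond.mpr hc), if_pos hc, hne none (by simp), hne (some pl1) (by
      simpa using pl1_ne), hsame, ← mul_assoc (locK (some pl0) γ), red_mul h0 (hc pl0) hκ,
      sg_mul _ _ _ _ (red_det h0 (hc pl0)).1 (red_det h0 hκ).1, sg_kappa h0 hk]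
    push_cast
    ring
  · rw [if_neg (fun h' => hc (hcond.mp h')), if_neg hc, neg_zero]

theorem main (h0 : Res2 (some pl0)) : S_cu3 := by
  intro g
  obtain ⟨k, hk, x₀, h⟩ := conj_up (g (some pl0))
  refine ⟨adl (some pl0) x₀, fun x => ?_⟩
  unfold fc
  rw [← finsum_neg_distrib]
  exact finsum_congr fun γ => phi_anti h0 g hk h x γ

end Pool.Agent.W376.LLC
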